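import Pool.Agent.Helper83.OU.Exp

/-!
# MP_3b56a7, row AVG: the average over the signs
-/

set_option autoImplicit false

namespace Pool.Agent.Helper83.OU

open Finset Pool.Agent.OddU

theorem prodEO {k : ℕ} (e : Fin k → ℕ) :
    ∏ m, (1 + (-1 : ℝ) ^ e m) = if ∀ m, Even (e m) then 2 ^ k else 0 := by
  classical
  split_ifs with h
  · rw [prod_congr rfl (g := fun _ => (2 : ℝ))]
    · simp
    · intro m _
      rw [(h m).neg_one_pow]
      norm_num
  · push Not at h
    obtain ⟨m, hm⟩ := h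
    apply prod_eq_zero (mem_univ m)
    rw [(Nat.not_even_iff_odd.mp hm).neg_one_pow]
    norm_num

theorem sg_sq {k : ℕ} (a : Fin k → ℤ) (i : Fin k) : sg a i ^ 2 = 1 := by
  unfold sg
  rw [← prod_pow]
  apply prod_eq_one
  intro m _
  split_ifs <;> norm_num

theorem w_nonneg {k : ℕ} (a : Fin k → ℤ) (i : Fin k) (s : Fin k → Bool) :
    0 ≤ 1 - sg a i * ∏ m ∈ univ.erase i, sb (s m) := by
  have h1 : (∏ m ∈ univ.erase i, sb (s m)) ^ 2 = 1 := by
    rw [← prod_pow]
    exact prod_eq_one (fun m _ => sb_sq _)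
  have h2 := sg_sq a i
  nlinarith [sq_nonneg (sg a i - ∏ m ∈ univ.erase i, sb (s m))]

/-- all fibres odd on an even set: a bijection -/
theorem bij_of_odd {k : ℕ} (hk : Odd k) (i : Fin k) (S : Finset (Fin k)) (hS : Even S.card)
    (τ : Fin k → Fin k) (hτ : ∀ l ∈ S, τ l ≠ i)
    (ho : ∀ m, m ≠ i → Odd (S.filter (fun l => τ l = m)).card) :
    ∃ i', S = univ.erase i' ∧ Bij i i' τ := by
  classical
  have himg : S.image τ = univ.erase i := by
    apply Subset.antisymm
    · intro m hm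
      obtain ⟨l, hl, rfl⟩ := mem_image.mp hm
      exact mem_erase.mpr ⟨hτ l hl, mem_univ _⟩
    · intro m hm
      have h1 := ho m (ne_of_mem_erase hm)
      have h2 : 0 < (S.filter (fun l => τ l = m)).card := h1.pos
      obtain ⟨l, hl⟩ := card_pos.mp h2
      rw [mem_filter] at hl
      exact mem_image.mpr ⟨l, hl.1, hl.2⟩
  have hc1 : (univ.erase i : Finset (Fin k)).card = k - 1 := by
    rw [card_erase_of_mem (mem_univ i), card_univ, Fintype.card_fin]
  have hc2 : k - 1 ≤ S.card := by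
    rw [← hc1, ← himg]
    exact card_image_le
  have hc3 : S.card ≤ k := by
    have := card_le_univ S
    rwa [Fintype.card_fin] at this
  have hk0 : 0 < k := hk.pos
  have hc4 : S.card = k - 1 := by
    have h1 : S.card ≠ k := by
      intro h
      rw [h] at hS
      exact (Nat.not_even_iff_odd.mpr hk) hS
    omega
  have hinj : Set.InjOn τ (S : Set (Fin k)) := by
    rw [← card_image_iff, himg, hc1, hc4]
  have hcompl : Sᶜ.card = 1 := by
    rw [card_compl, Fintype.card_fin]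
    omega
  obtain ⟨i', hi'⟩ := card_eq_one.mp hcompl
  have hSe : S = univ.erase i' := by
    ext l
    have h1 : l ∈ Sᶜ ↔ l = i' := by rw [hi', mem_singleton]
    rw [mem_compl] at h1
    rw [mem_erase]
    constructor
    · intro hl
      exact ⟨fun h => (h1.mpr h) hl, mem_univ _⟩
    · rintro ⟨hl, _⟩
      by_contra h
      exact hl (h1.mp h)
  refine ⟨i', hSe, ?_⟩
  have hmem : ∀ l, l ∈ S ↔ l ≠ i' := by
    intro l
    rw [hSe, mem_erase]
    simp
  refine ⟨?_, ?_, ?_⟩
  · intro l hl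
    exact hτ l ((hmem l).mpr hl)
  · intro l hl l' hl' h
    exact hinj (mem_coe.mpr ((hmem l).mpr hl)) (mem_coe.mpr ((hmem l').mpr hl')) h
  · intro m hm
    have h1 : m ∈ S.image τ := by
      rw [himg]
      exact mem_erase.mpr ⟨hm, mem_univ _⟩
    obtain ⟨l, hl, rfl⟩ := mem_image.mp h1
    exact ⟨l, (hmem l).mp hl, rfl⟩

/-- the scale -/
noncomputable def eps (k : ℕ) : ℝ := 1 / (k * 2 ^ k)

theorem eps_pos {k : ℕ} (hk : 0 < k) : 0 < eps k := by
  unfold eps
  have : (0 : ℝ) < k := by exact_mod_cast hk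
  positivity

theorem eps_le_one {k : ℕ} (hk : 0 < k) : eps k ≤ 1 := by
  unfold eps
  have h1 : (1 : ℝ) ≤ k := by exact_mod_cast hk
  have h2 : (1 : ℝ) ≤ 2 ^ k := one_le_pow₀ (by norm_num)
  rw [div_le_one (by positivity)]
  nlinarith

/-- the test function -/
noncomputable def gs {k : ℕ} (a : Fin k → ℤ) (i : Fin k) (B : Fin k → ℤ) (q : ℕ)
    (s : Fin k → Bool) : LP :=
  ∑ m ∈ univ.erase i, (eps k * sb (s m)) • bump k (hh a) (B m) q

theorem gs_le {k : ℕ} (hk : 0 < k) (a : Fin k → ℤ) (i : Fin k) (B : Fin k → ℤ) (q : ℕ)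
    (s : Fin k → Bool) (x : ℤ) : |(gs a i B q s).coeff x| ≤ 1 := by
  unfold gs
  rw [AddMonoidAlgebra.coeff_sum, Finsupp.finsetSum_apply]
  refine (abs_sum_le_sum_abs _ _).trans ?_
  have h1 : ∀ m ∈ univ.erase i, |((eps k * sb (s m)) • bump k (hh a) (B m) q).coeff x| ≤
      1 / k := by
    intro m _
    rw [AddMonoidAlgebra.coeff_smul_apply, smul_eq_mul, abs_mul, abs_mul]
    have h2 : |sb (s m)| = 1 := by
      cases s m <;> simp [sb]
    rw [h2, mul_one, abs_of_pos (eps_pos hk)]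
    have h3 := bump_coeff k (hh a) (B m) q x
    have h4 : (0 : ℝ) < k := by exact_mod_cast hk
    calc eps k * |(bump k (hh a) (B m) q).coeff x| ≤ eps k * 2 ^ k :=
          mul_le_mul_of_nonneg_left h3 (eps_pos hk).le
      _ = 1 / k := by
          unfold eps
          field_simp
  refine (sum_le_sum h1).trans ?_
  rw [sum_const, card_erase_of_mem (mem_univ i), card_univ, Fintype.card_fin, nsmul_eq_mul]
  have h4 : (0 : ℝ) < k := by exact_mod_cast hk
  rw [mul_one_div, div_le_one h4]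
  exact_mod_cast Nat.sub_le k 1

theorem gs_supp {k : ℕ} (a : Fin k → ℤ) (i : Fin k) (N : ℤ) (B : Fin k → ℤ)
    (hB : ∀ m, 0 ≤ B m ∧ B m + 1 + k * hh a ≤ N) (q : ℕ)
    (s : Fin k → Bool) (x : ℤ) (hx : (gs a i B q s).coeff x ≠ 0) : 1 ≤ x ∧ x ≤ N * q := by
  unfold gs at hx
  rw [AddMonoidAlgebra.coeff_sum, Finsupp.finsetSum_apply] at hx
  obtain ⟨m, _, hm⟩ := exists_ne_zero_of_sum_ne_zero hx
  rw [AddMonoidAlgebra.coeff_smul_apply, smul_eq_mul] at hm
  have h1 := right_ne_zero_of_mul hm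
  have h2 := bump_supp k (hh a) (B m) q (hh_nonneg a) (by positivity) x h1
  have hq : (0 : ℤ) ≤ q := by positivity
  constructor
  · have h3 := mul_nonneg (hB m).1 hq
    linarith [h2.1]
  · exact h2.2.trans (mul_le_mul_of_nonneg_right (hB m).2 hq)

/-- the possible maps -/
def PP {k : ℕ} (i : Fin k) (S : Finset (Fin k)) : Finset (Fin k → Fin k) :=
  Fintype.piFinset (fun l : Fin k => if l ∈ S then univ.erase i else {i})

theorem mem_PP {k : ℕ} {i : Fin k} {S : Finset (Fin k)} {τ : Fin k → Fin k} (h : τ ∈ PP i S) :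
    (∀ l ∈ S, τ l ≠ i) ∧ ∀ l ∉ S, τ l = i := by
  unfold PP at h
  rw [Fintype.mem_piFinset] at h
  constructor
  · intro l hl
    have := h l
    rw [if_pos hl] at this
    exact ne_of_mem_erase this
  · intro l hl
    have := h l
    rw [if_neg hl] at this
    exact mem_singleton.mp this

theorem phi_eq {k : ℕ} (a : Fin k → ℤ) (i : Fin k) (N : ℤ) (B : Fin k → ℤ) (q : ℕ)
    (s : Fin k → Bool) (S : Finset (Fin k)) :
    br a (fun l => if l ∈ S then gs a i B q s else ind 0 (N * q)) =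
      ∑ τ ∈ PP i S, eps k ^ S.card * (∏ l ∈ S, sb (s (τ l))) * TT a N B q S τ := by
  unfold gs
  rw [br_expand a S i (fun m => eps k * sb (s m)) (fun m => bump k (hh a) (B m) q)
    (ind 0 (N * q))]
  apply sum_congr rfl
  intro τ _
  rw [prod_mul_distrib, prod_const]
  rfl

/-- the weighted sum -/
theorem weighted {k : ℕ} (a : Fin k → ℤ) (i : Fin k) (N : ℤ) (B : Fin k → ℤ) (q : ℕ)
    (𝒮 : Finset (Finset (Fin k))) :
    ∑ s : Fin k → Bool, (1 - sg a i * ∏ m ∈ univ.erase i, sb (s m)) *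
        (∑ S ∈ 𝒮, br a (fun l => if l ∈ S then gs a i B q s else ind 0 (N * q))) =
      ∑ S ∈ 𝒮, ∑ τ ∈ PP i S, eps k ^ S.card * TT a N B q S τ *
        ((if ∀ m, Even ((S.filter (fun l => τ l = m)).card) then 2 ^ k else 0) -
          sg a i * (if ∀ m, Even ((if m = i then 0 else 1) +
            (S.filter (fun l => τ l = m)).card) then 2 ^ k else 0)) := by
  classical
  simp only [phi_eq, mul_sum]
  rw [sum_comm]
  apply sum_congr rfl
  intro S _
  rw [sum_comm]
  apply sum_congr rfl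
  intro τ _
  have h1 := sum_one S τ
  have h2 := sum_two i S τ
  rw [prodEO] at h1 h2
  have h3 : ∀ s : Fin k → Bool, (1 - sg a i * ∏ m ∈ univ.erase i, sb (s m)) *
      (eps k ^ S.card * (∏ l ∈ S, sb (s (τ l))) * TT a N B q S τ) =
      eps k ^ S.card * TT a N B q S τ * ((∏ l ∈ S, sb (s (τ l))) -
        sg a i * ((∏ m ∈ univ.erase i, sb (s m)) * ∏ l ∈ S, sb (s (τ l)))) := by
    intro s
    ring
  simp only [h3]
  rw [← mul_sum, sum_sub_distrib, ← mul_sum, h1, h2]

theorem sum_w {k : ℕ} (h5 : 5 ≤ k) (a : Fin k → ℤ) (i : Fin k) :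
    ∑ s : Fin k → Bool, (1 - sg a i * ∏ m ∈ univ.erase i, sb (s m)) = 2 ^ k := by
  classical
  rw [sum_sub_distrib, ← mul_sum]
  have h2 := sum_two i ∅ (fun l => l)
  simp only [prod_empty, mul_one, filter_empty, card_empty, add_zero] at h2
  rw [prodEO] at h2
  have h3 : ¬ ∀ m : Fin k, Even (if m = i then 0 else 1) := by
    intro h
    obtain ⟨m, hm⟩ : ∃ m : Fin k, m ≠ i := by
      have : Nontrivial (Fin k) := Fin.nontrivial_iff_two_le.mpr (by omega)
      exact exists_ne i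
    have h1 := h m
    rw [if_neg hm] at h1
    exact absurd h1 (by decide)
  rw [if_neg h3] at h2
  rw [h2]
  simp

end Pool.Agent.Helper83.OU
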