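import Pool.Agent.OddU.Defs

/-!
# MP_3b56a7, row AVG: the multilinear expansion, the sign sums and the size of the test functions
-/

set_option autoImplicit false

namespace Pool.Agent.Helper83.OU

open Finset Pool.Agent.OddU

theorem phi_smul (c : ℤ) (r : ℝ) (f : LP) : phi c (r • f) = r • phi c f := by
  have h := map_smul (AddMonoidAlgebra.mapDomainAlgHom ℝ ℝ (AddMonoidHom.mulLeft c)) r f
  exact h

theorem br_expand {k : ℕ} (a : Fin k → ℤ) (S : Finset (Fin k)) (i : Fin k) (c : Fin k → ℝ)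
    (f : Fin k → LP) (H : LP) :
    br a (fun l => if l ∈ S then ∑ m ∈ univ.erase i, c m • f m else H) =
      ∑ τ ∈ Fintype.piFinset (fun l : Fin k => if l ∈ S then univ.erase i else {i}),
        (∏ l ∈ S, c (τ l)) * br a (fun l => if l ∈ S then f (τ l) else H) := by
  classical
  unfold br
  have h1 : ∀ l : Fin k, phi (a l) (if l ∈ S then ∑ m ∈ univ.erase i, c m • f m else H) =
      ∑ m ∈ (if l ∈ S then univ.erase i else {i}),
        ((if l ∈ S then c m else 1) • phi (a l) (if l ∈ S then f m else H)) := by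
    intro l
    by_cases hl : l ∈ S
    · simp only [hl, if_true, map_sum, phi_smul]
    · simp [hl]
  simp only [h1]
  rw [prod_univ_sum]
  rw [AddMonoidAlgebra.coeff_sum, Finsupp.finsetSum_apply]
  apply sum_congr rfl
  intro τ _
  rw [Finset.prod_smul, AddMonoidAlgebra.coeff_smul_apply, smul_eq_mul]
  congr 1
  rw [Finset.prod_ite_mem]
  simp

/-- the sign of a boolean -/
noncomputable def sb (b : Bool) : ℝ := if b then 1 else -1

theorem sb_sq (b : Bool) : sb b ^ 2 = 1 := by
  cases b <;> simp [sb]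

theorem sum_pow (n : ℕ) : ∑ b : Bool, sb b ^ n = 1 + (-1) ^ n := by
  simp [sb]

theorem sum_prod_pow {k : ℕ} (n : Fin k → ℕ) :
    ∑ s : Fin k → Bool, ∏ m, sb (s m) ^ n m = ∏ m, (1 + (-1 : ℝ) ^ n m) := by
  have h := prod_univ_sum (R := ℝ) (fun _ : Fin k => (univ : Finset Bool))
    (fun m b => sb b ^ n m)
  rw [Fintype.piFinset_univ] at h
  rw [← h]
  apply prod_congr rfl
  intro m _
  exact sum_pow (n m)

theorem prod_fib {k : ℕ} (S : Finset (Fin k)) (τ : Fin k → Fin k) (s : Fin k → Bool) :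
    ∏ l ∈ S, sb (s (τ l)) = ∏ m, sb (s m) ^ (S.filter (fun l => τ l = m)).card := by
  rw [← prod_fiberwise' S τ (fun m => sb (s m))]
  apply prod_congr rfl
  intro m _
  rw [prod_const]

theorem sum_one {k : ℕ} (S : Finset (Fin k)) (τ : Fin k → Fin k) :
    ∑ s : Fin k → Bool, ∏ l ∈ S, sb (s (τ l)) =
      ∏ m, (1 + (-1 : ℝ) ^ (S.filter (fun l => τ l = m)).card) := by
  rw [← sum_prod_pow]
  apply sum_congr rfl
  intro s _
  exact prod_fib S τ s

theorem sum_two {k : ℕ} (i : Fin k) (S : Finset (Fin k)) (τ : Fin k → Fin k) :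
    ∑ s : Fin k → Bool, (∏ m ∈ univ.erase i, sb (s m)) * ∏ l ∈ S, sb (s (τ l)) =
      ∏ m, (1 + (-1 : ℝ) ^ ((if m = i then 0 else 1) + (S.filter (fun l => τ l = m)).card)) := by
  rw [← sum_prod_pow]
  apply sum_congr rfl
  intro s _
  rw [prod_fib S τ s]
  have h1 : ∏ m ∈ univ.erase i, sb (s m) = ∏ m, sb (s m) ^ (if m = i then 0 else 1) := by
    rw [← Finset.mul_prod_erase univ (fun m => sb (s m) ^ (if m = i then 0 else 1)) (mem_univ i)]
    simp only [if_true, pow_zero, one_mul]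
    apply prod_congr rfl
    intro m hm
    rw [if_neg (ne_of_mem_erase hm), pow_one]
  rw [h1, ← prod_mul_distrib]
  apply prod_congr rfl
  intro m _
  rw [pow_add]

/-! ### sizes -/

theorem ind_coeff (α β x : ℤ) : (ind α β).coeff x = if α < x ∧ x ≤ β then 1 else 0 := by
  unfold ind mono
  rw [AddMonoidAlgebra.coeff_sum, Finsupp.finsetSum_apply]
  simp only [AddMonoidAlgebra.coeff_single, Finsupp.single_apply]
  rw [Finset.sum_ite_eq']
  simp [Finset.mem_Ioc]

theorem dif_mul_coeff (c : ℤ) (F : LP) (x : ℤ) :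
    (dif c * F).coeff x = F.coeff x - F.coeff (x - c) := by
  unfold dif mono
  rw [sub_mul, one_mul, AddMonoidAlgebra.coeff_sub, Finsupp.sub_apply,
    AddMonoidAlgebra.coeff_single_mul_apply, one_mul]
  congr 2
  ring

theorem dif_pow_coeff (c : ℤ) (F : LP) (M : ℝ) (hM : ∀ x, |F.coeff x| ≤ M) (n : ℕ) :
    ∀ x, |(dif c ^ n * F).coeff x| ≤ 2 ^ n * M := by
  induction n with
  | zero => intro x; simpa using hM x
  | succ n ih =>
    intro x
    rw [pow_succ', mul_assoc, dif_mul_coeff]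
    have h1 := ih x
    have h2 := ih (x - c)
    have h3 := abs_sub (( dif c ^ n * F).coeff x) ((dif c ^ n * F).coeff (x - c))
    rw [pow_succ]
    linarith

theorem dif_pow_supp (c : ℤ) (hc : 0 ≤ c) (F : LP) (α β : ℤ)
    (hF : ∀ x, F.coeff x ≠ 0 → α ≤ x ∧ x ≤ β) (n : ℕ) :
    ∀ x, (dif c ^ n * F).coeff x ≠ 0 → α ≤ x ∧ x ≤ β + n * c := by
  induction n with
  | zero => intro x hx; simpa using hF x (by simpa using hx)
  | succ n ih =>
    intro x hx
    rw [pow_succ', mul_assoc, dif_mul_coeff] at hx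
    by_cases h1 : (dif c ^ n * F).coeff x = 0
    · have h2 : (dif c ^ n * F).coeff (x - c) ≠ 0 := by
        intro h
        apply hx
        rw [h1, h, sub_zero]
      have h3 := ih _ h2
      push_cast
      constructor
      · linarith [h3.1]
      · linarith [h3.2]
    · have h3 := ih _ h1
      push_cast
      constructor
      · linarith [h3.1]
      · linarith [h3.2]

theorem bump_coeff (k : ℕ) (h B q : ℤ) (x : ℤ) : |(bump k h B q).coeff x| ≤ 2 ^ k := by
  unfold bump
  have h1 := dif_pow_coeff (h * q) (ind (B * q) (B * q + q)) 1 (by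
    intro x
    rw [ind_coeff]
    split_ifs <;> simp) k x
  simpa using h1

theorem bump_supp (k : ℕ) (h B q : ℤ) (hh0 : 0 ≤ h) (hq : 0 ≤ q) (x : ℤ)
    (hx : (bump k h B q).coeff x ≠ 0) : B * q + 1 ≤ x ∧ x ≤ (B + 1 + k * h) * q := by
  unfold bump at hx
  have h1 := dif_pow_supp (h * q) (mul_nonneg hh0 hq) (ind (B * q) (B * q + q)) (B * q + 1)
    (B * q + q) (by
      intro x hx
      rw [ind_coeff] at hx
      by_cases h : B * q < x ∧ x ≤ B * q + q
      · exact ⟨by omega, h.2⟩
      · rw [if_neg h] at hx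
        exact absurd rfl hx) k x hx
  refine ⟨h1.1, h1.2.trans (le_of_eq (by ring))⟩

theorem hh_nonneg {k : ℕ} (a : Fin k → ℤ) : 0 ≤ hh a := by
  unfold hh AA LL
  have h1 : 0 ≤ ∑ l, |a l| := sum_nonneg (fun l _ => abs_nonneg _)
  have h2 : 0 ≤ ∏ l, |a l| := prod_nonneg (fun l _ => abs_nonneg _)
  positivity

end Pool.Agent.Helper83.OU
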