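import Pool.Agent.Helper83.OU.Core

/-!
# MP_3b56a7, row AVG: from the three estimates to a good test function
-/

set_option autoImplicit false

namespace Pool.Agent.Helper83.OU

open Finset Pool.Agent.OddU

theorem exists_g_core {k : ℕ} (hk : Odd k) (h5 : 5 ≤ k) (a : Fin k → ℤ) (i : Fin k)
    (N : ℤ) (B : Fin k → ℤ) (hB : ∀ m, 0 ≤ B m ∧ B m + 1 + k * hh a ≤ N)
    (hE : ∃ C : ℝ, ∀ (q : ℕ), 0 < q → ∀ (S : Finset (Fin k)) (τ : Fin k → Fin k), S.Nonempty →
      (∀ l ∈ S, τ l ≠ i) → EvenOn S τ → |TT a N B q S τ| ≤ C * (q : ℝ) ^ (k - 2))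
    (hO1 : ∀ (q : ℕ), 0 < q → ∀ (i' : Fin k) (τ : Fin k → Fin k), Bij i i' τ →
      0 ≤ sg a i * TT a N B q (univ.erase i') τ)
    (hO2 : ∃ c : ℝ, 0 < c ∧ ∃ q₀ : ℕ, ∀ q : ℕ, q₀ ≤ q →
      c * (q : ℝ) ^ (k - 1) ≤ sg a i * TT a N B q (univ.erase i) id) :
    ∃ c : ℝ, 0 < c ∧
    ∃ q₀ : ℕ, ∀ q : ℕ, q₀ ≤ q → ∃ g : LP, (∀ x, g.coeff x ≠ 0 → 1 ≤ x ∧ x ≤ N * q) ∧
      (∀ x, |g.coeff x| ≤ 1) ∧
      ∑ S ∈ (univ : Finset (Finset (Fin k))).filter (fun S => S.Nonempty ∧ Even S.card),
        br a (fun l => if l ∈ S then g else ind 0 (N * q)) ≤ - c * (q : ℝ) ^ (k - 1) := by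
  classical
  obtain ⟨C, hC⟩ := hE
  obtain ⟨c, hc, q₀, hq₀⟩ := hO2
  have hk0 : 0 < k := by omega
  set 𝒮 : Finset (Finset (Fin k)) :=
    univ.filter (fun S => S.Nonempty ∧ Even S.card) with h𝒮
  have hε := eps_pos hk0
  have hε1 := eps_le_one hk0
  set D : ℝ := eps k ^ (k - 1) * c * 2 ^ k with hD
  have hDpos : 0 < D := by positivity
  set A : ℝ := 2 ^ k * |C| with hA
  have hA0 : 0 ≤ A := by positivity
  set P : ℝ := ∑ S ∈ 𝒮, ∑ _τ ∈ PP i S, (1 : ℝ) with hP
  have hP0 : 0 ≤ P := sum_nonneg (fun S _ => sum_nonneg (fun τ _ => zero_le_one))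
  obtain ⟨q₁, hq₁⟩ := exists_nat_ge (P * A / (D / 2))
  refine ⟨eps k ^ (k - 1) * c / 2, by positivity, max (max q₀ q₁) 1, ?_⟩
  intro q hq
  have hq0' : q₀ ≤ q := (le_max_left _ _).trans ((le_max_left _ _).trans hq)
  have hq1' : q₁ ≤ q := (le_max_right _ _).trans ((le_max_left _ _).trans hq)
  have hqpos : 0 < q := lt_of_lt_of_le one_pos ((le_max_right _ _).trans hq)
  have hqR : (0 : ℝ) < q := by exact_mod_cast hqpos
  set Q : ℝ := (q : ℝ) ^ (k - 2) with hQ
  have hQ0 : 0 ≤ Q := by positivity
  have hQ1 : (q : ℝ) ^ (k - 1) = q * Q := by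
    rw [hQ, ← pow_succ']
    congr 1
    omega
  -- the weighted sum
  have hw := weighted a i N B q 𝒮
  have hid : id ∈ PP i (univ.erase i) := by
    unfold PP
    rw [Fintype.mem_piFinset]
    intro l
    by_cases hl : l = i
    · subst hl
      simp
    · rw [if_pos (mem_erase.mpr ⟨hl, mem_univ _⟩)]
      exact mem_erase.mpr ⟨hl, mem_univ _⟩
  have hS0 : (univ.erase i : Finset (Fin k)) ∈ 𝒮 := by
    rw [h𝒮, mem_filter]
    have hcard : (univ.erase i : Finset (Fin k)).card = k - 1 := by
      rw [card_erase_of_mem (mem_univ i), card_univ, Fintype.card_fin]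
    refine ⟨mem_univ _, ?_, ?_⟩
    · rw [← card_pos, hcard]
      omega
    · rw [hcard]
      obtain ⟨r, hr⟩ := hk
      exact ⟨r, by omega⟩
  have hterm : ∀ S ∈ 𝒮, ∀ τ ∈ PP i S, eps k ^ S.card * TT a N B q S τ *
        ((if ∀ m, Even ((S.filter (fun l => τ l = m)).card) then 2 ^ k else 0) -
          sg a i * (if ∀ m, Even ((if m = i then 0 else 1) +
            (S.filter (fun l => τ l = m)).card) then 2 ^ k else 0)) ≤
      A * Q - (if S = univ.erase i ∧ τ = id then D * (q : ℝ) ^ (k - 1) else 0) := by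
    intro S hS τ hτ
    rw [h𝒮, mem_filter] at hS
    have hτ1 := (mem_PP hτ).1
    have hp0 : 0 < eps k ^ S.card := pow_pos hε _
    have hp1 : eps k ^ S.card ≤ 1 := pow_le_one₀ hε.le hε1
    have h2k : (0 : ℝ) < 2 ^ k := by positivity
    -- the even part
    have hev : eps k ^ S.card * TT a N B q S τ *
        (if ∀ m, Even ((S.filter (fun l => τ l = m)).card) then 2 ^ k else 0) ≤ A * Q := by
      split_ifs with he
      · have h1 := hC q hqpos S τ hS.2.1 hτ1 he
        have h2 : TT a N B q S τ ≤ |C| * Q :=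
          (le_abs_self _).trans (h1.trans (mul_le_mul_of_nonneg_right (le_abs_self C) hQ0))
        have h3 : 0 ≤ |C| * Q := by positivity
        have h4 : eps k ^ S.card * TT a N B q S τ ≤ |C| * Q := by
          calc eps k ^ S.card * TT a N B q S τ ≤ eps k ^ S.card * (|C| * Q) :=
                mul_le_mul_of_nonneg_left h2 hp0.le
            _ ≤ 1 * (|C| * Q) := mul_le_mul_of_nonneg_right hp1 h3
            _ = |C| * Q := one_mul _
        calc eps k ^ S.card * TT a N B q S τ * 2 ^ k ≤ |C| * Q * 2 ^ k :=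
              mul_le_mul_of_nonneg_right h4 h2k.le
          _ = A * Q := by rw [hA]; ring
      · rw [mul_zero]
        positivity
    -- the odd part
    have hodd : (if S = univ.erase i ∧ τ = id then D * (q : ℝ) ^ (k - 1) else 0) ≤
        eps k ^ S.card * TT a N B q S τ * (sg a i * (if ∀ m, Even ((if m = i then 0 else 1) +
            (S.filter (fun l => τ l = m)).card) then 2 ^ k else 0)) := by
      by_cases he : ∀ m, Even ((if m = i then 0 else 1) + (S.filter (fun l => τ l = m)).card)
      · rw [if_pos he]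
        obtain ⟨i', hSi, hbij⟩ := bij_of_odd hk i S hS.2.2 τ hτ1 (by
          intro m hm
          have h1 := he m
          rw [if_neg hm, add_comm] at h1
          exact Nat.not_even_iff_odd.mp (Nat.even_add_one.mp h1))
        have h1 := hO1 q hqpos i' τ hbij
        rw [← hSi] at h1
        split_ifs with hcase
        · obtain ⟨hS1, hτid⟩ := hcase
          subst hτid
          subst hS1
          have h2 := hq₀ q hq0'
          have hcard : (univ.erase i : Finset (Fin k)).card = k - 1 := by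
            rw [card_erase_of_mem (mem_univ i), card_univ, Fintype.card_fin]
          rw [hcard]
          have h3 : 0 ≤ eps k ^ (k - 1) * 2 ^ k := by positivity
          calc D * (q : ℝ) ^ (k - 1) = (eps k ^ (k - 1) * 2 ^ k) * (c * (q : ℝ) ^ (k - 1)) := by
                rw [hD]; ring
            _ ≤ (eps k ^ (k - 1) * 2 ^ k) * (sg a i * TT a N B q (univ.erase i) id) :=
                mul_le_mul_of_nonneg_left h2 h3
            _ = _ := by ring
        · have : eps k ^ S.card * TT a N B q S τ * (sg a i * 2 ^ k) =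
              (eps k ^ S.card * 2 ^ k) * (sg a i * TT a N B q S τ) := by ring
          rw [this]
          positivity
      · rw [if_neg he, mul_zero, mul_zero]
        rw [if_neg]
        rintro ⟨hS1, hτid⟩
        apply he
        intro m
        subst hτid
        subst hS1
        by_cases hm : m = i
        · subst hm
          rw [if_pos rfl, zero_add]
          have : (univ.erase m).filter (fun l => id l = m) = ∅ := by
            ext l
            simp
          rw [this]
          exact ⟨0, rfl⟩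
        · rw [if_neg hm]
          have : (univ.erase i).filter (fun l => id l = m) = {m} := by
            ext l
            simp only [mem_filter, mem_erase, mem_univ, and_true, id, mem_singleton]
            constructor
            · rintro ⟨_, h⟩; exact h
            · rintro rfl; exact ⟨hm, rfl⟩
          rw [this]
          exact ⟨1, rfl⟩
    rw [mul_sub]
    linarith
  have hsum : ∑ s : Fin k → Bool, (1 - sg a i * ∏ m ∈ univ.erase i, sb (s m)) *
      (∑ S ∈ 𝒮, br a (fun l => if l ∈ S then gs a i B q s else ind 0 (N * q))) ≤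
      P * (A * Q) - D * (q : ℝ) ^ (k - 1) := by
    rw [hw]
    refine (sum_le_sum (fun S hS => sum_le_sum (fun τ hτ => hterm S hS τ hτ))).trans ?_
    have h1 : ∑ S ∈ 𝒮, ∑ τ ∈ PP i S, (A * Q - (if S = univ.erase i ∧ τ = id then
        D * (q : ℝ) ^ (k - 1) else 0)) = P * (A * Q) - ∑ S ∈ 𝒮, ∑ τ ∈ PP i S,
        (if S = univ.erase i ∧ τ = id then D * (q : ℝ) ^ (k - 1) else 0) := by
      simp only [sum_sub_distrib]
      congr 1
      rw [hP, sum_mul]
      apply sum_congr rfl
      intro S _
      rw [sum_mul]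
      apply sum_congr rfl
      intro τ _
      ring
    rw [h1]
    have h0 : ∀ (S : Finset (Fin k)) (τ : Fin k → Fin k), (0 : ℝ) ≤
        (if S = univ.erase i ∧ τ = id then D * (q : ℝ) ^ (k - 1) else 0) := by
      intro S τ
      split_ifs <;> positivity
    have h2 : D * (q : ℝ) ^ (k - 1) ≤ ∑ S ∈ 𝒮, ∑ τ ∈ PP i S,
        (if S = univ.erase i ∧ τ = id then D * (q : ℝ) ^ (k - 1) else 0) := by
      have h3 : D * (q : ℝ) ^ (k - 1) ≤ ∑ τ ∈ PP i (univ.erase i),
          (if (univ.erase i : Finset (Fin k)) = univ.erase i ∧ τ = id then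
            D * (q : ℝ) ^ (k - 1) else 0) := by
        have h4 := single_le_sum (f := fun τ : Fin k → Fin k =>
          (if (univ.erase i : Finset (Fin k)) = univ.erase i ∧ τ = id then
            D * (q : ℝ) ^ (k - 1) else 0)) (fun τ _ => h0 _ τ) hid
        simpa using h4
      refine h3.trans ?_
      exact single_le_sum (f := fun S : Finset (Fin k) => ∑ τ ∈ PP i S,
        (if S = univ.erase i ∧ τ = id then D * (q : ℝ) ^ (k - 1) else 0))
        (fun S _ => sum_nonneg (fun τ _ => h0 S τ)) hS0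
    linarith
  -- the error is at most half of the main term
  have hPA : P * (A * Q) ≤ D / 2 * (q : ℝ) ^ (k - 1) := by
    have h1 : P * A / (D / 2) ≤ q := hq₁.trans (by exact_mod_cast hq1')
    rw [div_le_iff₀ (by positivity)] at h1
    rw [hQ1]
    calc P * (A * Q) = (P * A) * Q := by ring
      _ ≤ (q * (D / 2)) * Q := mul_le_mul_of_nonneg_right h1 hQ0
      _ = D / 2 * (q * Q) := by ring
  by_contra hcon
  push Not at hcon
  set X : ℝ := -(eps k ^ (k - 1) * c / 2) * (q : ℝ) ^ (k - 1) with hX
  have hbig : ∀ s : Fin k → Bool,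
      X < ∑ S ∈ 𝒮, br a (fun l => if l ∈ S then gs a i B q s else ind 0 (N * q)) := by
    intro s
    exact hcon (gs a i B q s) (gs_supp a i N B hB q s) (gs_le hk0 a i B q s)
  have hsw := sum_w h5 a i
  have hge : 2 ^ k * X < ∑ s : Fin k → Bool, (1 - sg a i * ∏ m ∈ univ.erase i, sb (s m)) *
      (∑ S ∈ 𝒮, br a (fun l => if l ∈ S then gs a i B q s else ind 0 (N * q))) := by
    rw [← hsw, sum_mul]
    apply sum_lt_sum
    · intro s _
      exact mul_le_mul_of_nonneg_left (hbig s).le (w_nonneg a i s)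
    · by_contra hno
      push Not at hno
      have hz : ∀ s : Fin k → Bool, (1 - sg a i * ∏ m ∈ univ.erase i, sb (s m)) = 0 := by
        intro s
        have h1 := w_nonneg a i s
        by_contra hne
        have hpos := lt_of_le_of_ne h1 (Ne.symm hne)
        have h2 := hno s (mem_univ s)
        have h3 := mul_lt_mul_of_pos_left (hbig s) hpos
        linarith
      rw [sum_congr rfl (fun s _ => hz s), sum_const_zero] at hsw
      have : (0 : ℝ) < 2 ^ k := by positivity
      linarith
  have hXe : 2 ^ k * X = - (D / 2) * (q : ℝ) ^ (k - 1) := by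
    rw [hX, hD]
    ring
  linarith

end Pool.Agent.Helper83.OU
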